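import Pool.Agent.H9.CA.Tool
import Pool.Agent.H68.SF.LAll

/-! `T_DA`: uniform enumeration of `L[A]`. -/

set_option linter.unusedVariables false

open Ordinal Order Set
open scoped ZFSet

namespace CAA

open SF SF.H68

theorem pf_DA : T_DA := by
  obtain ⟨Ix, Dx, En, -, hDt, hEt, hDx, hEn⟩ := aLDX
  have hL : ∀ f g h : (V → Prop) → (ℕ → V) → V, Tm ZFm f → Tm ZFm g → Tm ZFm h →
      Tm ZFm (fun M v => Lh (f M v) (g M v) (h M v).rank) := fun f g h hf hg hh =>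
    Tm.at3 (F := fun _ x y z => Lh x y z.rank) aLHT hf hg hh
  have hEH := tm_EH aLEQ aLHT hDt hEt
  have hE4 : Tm ZFm (fun _ v => EH En Dx ∅ ∅ (v 0) (fst (v 1)).rank) := by
    refine (Tm.comp hEH (fun i => match i with
        | 0 => fun _ v => fst (v 1)
        | 1 => fun _ _ => ∅
        | 2 => fun _ _ => ∅
        | (_ + 3) => fun _ v => v 0) ?_).congr fun M k v hv => rfl
    intro i
    rcases i with _ | _ | _ | i
    · exact Tm.fst (Tm.var 1)
    · exact Tm.empty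
    · exact Tm.empty
    · exact Tm.var 0
  refine ⟨fun A e => app (EH En Dx ∅ ∅ A (fst e).rank) (snd e),
    Tm.app hE4 (Tm.snd (Tm.var 1)), ?_⟩
  intro M k A hA x hx
  obtain ⟨ρ, hρ, hx⟩ := hx
  have hg : Enm (∅ : V) (∅ : V) := ⟨fun q hq => absurd hq (ZFSet.notMem_empty q),
    fun x y z hy => absurd hy (ZFSet.notMem_empty _), fun y hy => absurd hy (ZFSet.notMem_empty y)⟩
  have hen : Enm (EH En Dx ∅ ∅ A ρ) (LA A ρ) := enm_EH aLEP hDx hEn hg ρ
  obtain ⟨ξ, hξ⟩ := hen.onto x hx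
  obtain ⟨ξ', y, hy, he⟩ := hen.pr _ hξ
  rw [ZFSet.pair_inj] at he
  obtain ⟨rfl, rfl⟩ := he
  have hME : M (EH En Dx ∅ ∅ A ρ) := by
    have h := hE4.1 M k (cons A fun _ => ZFSet.pair ρ.toZFSet ρ.toZFSet) (by
      intro i
      rcases i with _ | i
      · exact hA
      · exact k.mpair hρ hρ)
    have h2 : M (EH En Dx ∅ ∅ A (fst (ZFSet.pair ρ.toZFSet ρ.toZFSet)).rank) := h
    rwa [fst_pair, Ordinal.rank_toZFSet] at h2
  refine ⟨ρ, ξ', hρ, ?_, ?_⟩
  · exact (k.of_pair_mem hME hξ).1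
  · show app (EH En Dx ∅ ∅ A (fst (ZFSet.pair ρ.toZFSet ξ'.toZFSet)).rank)
      (snd (ZFSet.pair ρ.toZFSet ξ'.toZFSet)) = x
    rw [fst_pair, snd_pair, Ordinal.rank_toZFSet]
    exact app_eq hen.svl hξ

end CAA
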