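import Pool.Agent.H11.CA.DA

/-! `T_DC`: the definable closure of a set of parameters in a level is the least elementary
submodel which contains the parameters. -/

set_option linter.unusedVariables false

open Ordinal Order Set
open scoped ZFSet

namespace CAA

open SF SF.H68

namespace DC

theorem mem_Dcl {N Y z : V} : z ∈ Dcl N Y ↔ z ∈ N ∧ ∃ (φ : Fml) (l : List V),
    (∀ p ∈ l, p ∈ Y ∧ p ∈ N) ∧
      ∀ x ∈ N, (Sat (· ∈ N) φ (cons x fun i => l.getD i x) ↔ x = z) := by
  unfold Dcl
  rw [ZFSet.mem_sep]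

/-- elements of the closure can be used as parameters -/
theorem comb (N Y : V) : ∀ (n : ℕ) (φ : Fml) (l : List V) (z : V) (v : ℕ → V),
    (∀ p ∈ l, p ∈ Y ∧ p ∈ N) → (∀ i < n, v i ∈ Dcl N Y) → z ∈ N →
    (∀ x ∈ N, (Sat (· ∈ N) φ
      (cons x fun i => if i < n then v i else l.getD (i - n) x) ↔ x = z)) → z ∈ Dcl N Y := by
  intro n
  induction n with
  | zero =>
    intro φ l z v hl _ hz h
    refine mem_Dcl.2 ⟨hz, φ, l, hl, fun x hx => ?_⟩
    have h1 := h x hx
    simpa using h1
  | succ n ih =>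
    intro φ l z v hl hv hz h
    obtain ⟨hvN, ψ, m, hm, hψ⟩ := mem_Dcl.1 (hv n (Nat.lt_succ_self n))
    set k := m.length with hk
    refine ih (.ex (.and
      (ψ.rn fun i => if i = 0 then 0 else if i - 1 < k then 2 + n + (i - 1) else 0)
      (φ.rn fun i => if i = 0 then 1 else if i - 1 < n then i + 1 else
        if i - 1 = n then 0 else k + i))) (m ++ l) z v ?_ (fun i hi => hv i (by omega)) hz ?_
    · intro p hp
      rcases List.mem_append.1 hp with hp | hp
      · exact hm p hp
      · exact hl p hp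
    · intro x hx
      rw [← h x hx]
      have e1 : ∀ y : V, (fun i => (cons y (cons x fun i => if i < n then v i else
          (m ++ l).getD (i - n) x)) (if i = 0 then 0 else if i - 1 < k then 2 + n + (i - 1)
            else 0)) = cons y fun i => m.getD i y := by
        intro y
        funext i
        rcases i with _ | i
        · rfl
        · rw [cons_succ]
          by_cases hi : i < k
          · have e : (if i + 1 = 0 then 0 else if i + 1 - 1 < k then 2 + n + (i + 1 - 1)
              else 0) = (n + i) + 1 + 1 := by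
              rw [if_neg (by omega), if_pos (by omega)]
              omega
            rw [e, cons_succ, cons_succ, if_neg (by omega)]
            have e2 : n + i - n = i := by omega
            rw [e2, List.getD_eq_getElem _ _ (by rw [List.length_append]; omega),
              List.getD_eq_getElem _ _ (by omega), List.getElem_append_left (by omega)]
          · have e : (if i + 1 = 0 then 0 else if i + 1 - 1 < k then 2 + n + (i + 1 - 1)
              else 0) = 0 := by
              rw [if_neg (by omega), if_neg (by omega)]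
            rw [e, cons_zero, List.getD_eq_default _ _ (by omega)]
      have e2 : ∀ y : V, (fun i => (cons y (cons x fun i => if i < n then v i else
          (m ++ l).getD (i - n) x)) (if i = 0 then 1 else if i - 1 < n then i + 1 else
            if i - 1 = n then 0 else k + i)) =
          cons x fun i => if i < n + 1 then (if i = n then y else v i) else
            l.getD (i - (n + 1)) x := by
        intro y
        funext i
        rcases i with _ | i
        · rfl
        · rw [cons_succ]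
          by_cases hi : i < n
          · have e : (if i + 1 = 0 then 1 else if i + 1 - 1 < n then i + 1 + 1 else
              if i + 1 - 1 = n then 0 else k + (i + 1)) = i + 1 + 1 := by
              rw [if_neg (by omega), if_pos (by omega)]
            rw [e, cons_succ, cons_succ, if_pos hi, if_pos (by omega), if_neg (by omega)]
          · by_cases hi' : i = n
            · have e : (if i + 1 = 0 then 1 else if i + 1 - 1 < n then i + 1 + 1 else
                if i + 1 - 1 = n then 0 else k + (i + 1)) = 0 := by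
                rw [if_neg (by omega), if_neg (by omega), if_pos (by omega)]
              rw [e, cons_zero, if_pos (by omega), if_pos hi']
            · have e : (if i + 1 = 0 then 1 else if i + 1 - 1 < n then i + 1 + 1 else
                if i + 1 - 1 = n then 0 else k + (i + 1)) = (k + i - 1) + 1 + 1 := by
                rw [if_neg (by omega), if_neg (by omega), if_neg (by omega)]
                omega
              rw [e, cons_succ, cons_succ, if_neg (by omega), if_neg (by omega)]
              have e3 : k + i - 1 - n = k + (i - (n + 1)) := by omega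
              rw [e3, List.getD_append_right _ _ _ _ (by omega)]
              congr 1
              omega
      constructor
      · rintro ⟨y, hy, h1, h2⟩
        rw [satP_rn, e1] at h1
        rw [satP_rn, e2] at h2
        have hy' : y = v n := (hψ y hy).1 h1
        subst hy'
        refine (iff_of_eq ?_).1 h2
        congr 2
        funext i
        by_cases hi : i < n + 1
        · rw [if_pos hi, if_pos hi]
          by_cases hi' : i = n
          · rw [if_pos hi', hi']
          · rw [if_neg hi']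
        · rw [if_neg hi, if_neg hi]
      · intro h2
        refine ⟨v n, hvN, ?_, ?_⟩
        · rw [satP_rn, e1]
          exact (hψ (v n) hvN).2 rfl
        · rw [satP_rn, e2]
          refine (iff_of_eq ?_).1 h2
          congr 2
          funext i
          by_cases hi : i < n + 1
          · rw [if_pos hi, if_pos hi]
            by_cases hi' : i = n
            · rw [if_pos hi', hi']
            · rw [if_neg hi']
          · rw [if_neg hi, if_neg hi]

/-- lexicographic order of pairs -/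
def Lx (e e' : V) : Prop :=
  fst e ∈ fst e' ∨ (fst e = fst e' ∧ (snd e ∈ snd e' ∨ snd e = snd e'))

/-- pairs of ordinals -/
def PO (e : V) : Prop := IsPr e ∧ IsOrd (fst e) ∧ IsOrd (snd e)

theorem po_iff {e : V} : PO e ↔ ∃ ρ ξ : Ordinal.{0}, e = ZFSet.pair ρ.toZFSet ξ.toZFSet := by
  constructor
  · rintro ⟨⟨x, y, rfl⟩, h1, h2⟩
    rw [fst_pair] at h1
    rw [snd_pair] at h2
    obtain ⟨ρ, rfl⟩ := h1
    obtain ⟨ξ, rfl⟩ := h2
    exact ⟨ρ, ξ, rfl⟩
  · rintro ⟨ρ, ξ, rfl⟩
    refine ⟨⟨_, _, rfl⟩, ?_, ?_⟩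
    · rw [fst_pair]
      exact ⟨ρ, rfl⟩
    · rw [snd_pair]
      exact ⟨ξ, rfl⟩

/-- witnesses of `φ` -/
def S (ix : V → V → V) (φ : Fml) (M : V → Prop) (u : ℕ → V) : Prop :=
  PO (u 0) ∧ Sat M φ (cons (ix (u 2) (u 0)) fun i => u (i + 3))

/-- the least witness -/
def R (ix : V → V → V) (φ : Fml) (M : V → Prop) (w : ℕ → V) : Prop :=
  ∃ e, M e ∧ (S ix φ M (cons e w) ∧ (∀ e', M e' → (S ix φ M (cons e' w) → Lx e e')) ∧
    w 0 = ix (w 1) e)

theorem dfb_S {ix : V → V → V} (hix : IsIx ix) (φ : Fml) : Dfb ZFm (S ix φ) := by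
  have h1 : Dfb ZFm (fun _ u => PO (u 0)) :=
    ((Dfb.isPr (Tm.var 0)).and ((Dfb.isOrd (Tm.fst (Tm.var 0))).and
      (Dfb.isOrd (Tm.snd (Tm.var 0)))))
  have h2 : Dfb ZFm (fun M v => Sat M φ v) := ⟨φ, fun M k v hv => Iff.rfl⟩
  have h3 := h2.comp (fun i => match i with
    | 0 => fun _ u => ix (u 2) (u 0)
    | i + 1 => fun _ u => u (i + 3)) (fun i => by
      rcases i with _ | i
      · exact Tm.at2 (F := fun _ x y => ix x y) hix.1 (Tm.var 2) (Tm.var 0)
      · exact Tm.var (i + 3))
  refine (h1.and h3).congr fun M k v hv => ?_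
  unfold S
  refine and_congr_right fun _ => iff_of_eq ?_
  congr 1
  funext i
  rcases i with _ | i <;> rfl

theorem dfb_R {ix : V → V → V} (hix : IsIx ix) (φ : Fml) : Dfb ZFm (R ix φ) := by
  have h1 := dfb_S hix φ
  have h2 : Dfb ZFm (fun _ z => Lx (z 1) (z 0)) := by
    refine (Dfb.mem (Tm.fst (Tm.var 1)) (Tm.fst (Tm.var 0))).or
      ((Dfb.eq (Tm.fst (Tm.var 1)) (Tm.fst (Tm.var 0))).and
        ((Dfb.mem (Tm.snd (Tm.var 1)) (Tm.snd (Tm.var 0))).or
          (Dfb.eq (Tm.snd (Tm.var 1)) (Tm.snd (Tm.var 0)))))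
  have h3 := (((h1.rn (shr 1)).imp h2)).all
  have h4 : Dfb ZFm (fun _ u => u 1 = ix (u 2) (u 0)) :=
    Dfb.eq (Tm.var 1) (Tm.at2 (F := fun _ x y => ix x y) hix.1 (Tm.var 2) (Tm.var 0))
  refine ((h1.and (h3.and h4)).ex).congr fun M k v hv => ?_
  unfold R
  refine exists_congr fun e => and_congr_right fun _ => and_congr_right fun _ =>
    and_congr_left fun _ => forall_congr' fun e' => forall_congr' fun _ => ?_
  have e1 : (fun i => cons e' (cons e v) (shr 1 i)) = cons e' v := by
    funext i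
    rcases i with _ | i <;> rfl
  rw [e1]
  exact Iff.rfl

theorem lx_antisymm {ρ ξ ρ' ξ' : Ordinal.{0}}
    (h1 : Lx (ZFSet.pair ρ.toZFSet ξ.toZFSet) (ZFSet.pair ρ'.toZFSet ξ'.toZFSet))
    (h2 : Lx (ZFSet.pair ρ'.toZFSet ξ'.toZFSet) (ZFSet.pair ρ.toZFSet ξ.toZFSet)) :
    ρ = ρ' ∧ ξ = ξ' := by
  unfold Lx at h1 h2
  simp only [fst_pair, snd_pair, Ordinal.toZFSet_mem_toZFSet_iff,
    Ordinal.toZFSet_injective.eq_iff] at h1 h2
  rcases h1 with h1 | ⟨h1, h1' | h1'⟩ <;> rcases h2 with h2 | ⟨h2, h2' | h2'⟩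
  · exact absurd h2 (lt_asymm h1)
  · exact absurd h2.symm (ne_of_lt h1)
  · exact absurd h2.symm (ne_of_lt h1)
  · exact absurd h1.symm (ne_of_lt h2)
  · exact absurd h2' (lt_asymm h1')
  · exact absurd h2'.symm (ne_of_lt h1')
  · exact absurd h1.symm (ne_of_lt h2)
  · exact absurd h1'.symm (ne_of_lt h2')
  · exact ⟨h1, h1'⟩

theorem tvstep {N A : V} {τ : Ordinal.{0}} (k : ZFm (· ∈ N)) (hA : A ∈ N) (hN : N = LA A τ)
    (φ : Fml) (v : ℕ → V) (hv : ∀ i, v i ∈ N) (hx : ∃ x ∈ N, Sat (· ∈ N) φ (cons x v)) :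
    ∃ z ∈ N, Sat (· ∈ N) φ (cons z v) ∧
      ∃ θ : Fml, ∀ x ∈ N, (Sat (· ∈ N) θ (cons x (cons A v)) ↔ x = z) := by
  obtain ⟨ix, hix⟩ := pf_DA
  have hixN : ∀ e ∈ N, ix A e ∈ N := by
    intro e he
    exact hix.1.1 (· ∈ N) k (cons A fun _ => e) (by
      intro i
      rcases i with _ | i
      · exact hA
      · exact he)
  have hS : ∀ (ρ ξ : Ordinal.{0}) (w : ℕ → V), w 1 = A → (∀ i, w (i + 2) = v i) →
      (S ix φ (· ∈ N) (cons (ZFSet.pair ρ.toZFSet ξ.toZFSet) w) ↔
        Sat (· ∈ N) φ (cons (ix A (ZFSet.pair ρ.toZFSet ξ.toZFSet)) v)) := by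
    intro ρ ξ w hw1 hw2
    unfold S
    have e0 : (cons (ZFSet.pair ρ.toZFSet ξ.toZFSet) w) 2 = A := hw1
    have e1 : (fun i => (cons (ZFSet.pair ρ.toZFSet ξ.toZFSet) w) (i + 3)) = v := by
      funext i
      exact hw2 i
    rw [e0, e1, cons_zero]
    constructor
    · exact fun h => h.2
    · exact fun h => ⟨po_iff.2 ⟨ρ, ξ, rfl⟩, h⟩
  let T : Set (Ordinal.{0} × Ordinal.{0}) := {p | p.1.toZFSet ∈ N ∧ p.2.toZFSet ∈ N ∧
    Sat (· ∈ N) φ (cons (ix A (ZFSet.pair p.1.toZFSet p.2.toZFSet)) v)}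
  have hT : T.Nonempty := by
    obtain ⟨x, hx, hs⟩ := hx
    have h1 : x ∈ Lh ∅ A τ := by
      have : x ∈ LA A τ := hN ▸ hx
      exact this
    rcases mem_Lh.1 h1 with h1 | ⟨β, hβ, h1⟩
    · exact absurd h1 (ZFSet.notMem_empty x)
    · have h2 : x ∈ LA A (β + 1) := Def_Lh_sub (lt_add_one β) h1
      have h3 : β.toZFSet ∈ N := by
        rw [hN]
        exact ord_mem_Lh ZFSet.isTransitive_empty hβ
      have h4 : (β + 1).toZFSet ∈ N := by
        rw [Ordinal.toZFSet_add_one]
        exact (Tm.ins (Tm.var 0) (Tm.var 0)).1 (· ∈ N) k (fun _ => β.toZFSet) fun _ => h3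
      obtain ⟨ρ, ξ, hρ, hξ, he⟩ := hix.2 (· ∈ N) k A hA x ⟨β + 1, h4, h2⟩
      refine ⟨(ρ, ξ), hρ, hξ, ?_⟩
      simp only
      rw [he]
      exact hs
  have wf : WellFounded (Prod.Lex (α := Ordinal.{0}) (β := Ordinal.{0}) (· < ·) (· < ·)) :=
    WellFounded.prod_lex wellFounded_lt wellFounded_lt
  obtain ⟨⟨ρ, ξ⟩, ⟨hρ, hξ, hs⟩, hmin⟩ := wf.has_min T hT
  simp only at hρ hξ hs
  have hle : ∀ ρ' ξ' : Ordinal.{0}, (ρ', ξ') ∈ T →
      Lx (ZFSet.pair ρ.toZFSet ξ.toZFSet) (ZFSet.pair ρ'.toZFSet ξ'.toZFSet) := by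
    intro ρ' ξ' h
    have h1 := hmin _ h
    rw [Prod.lex_def] at h1
    simp only [not_or, not_and, not_lt] at h1
    unfold Lx
    simp only [fst_pair, snd_pair, Ordinal.toZFSet_mem_toZFSet_iff,
      Ordinal.toZFSet_injective.eq_iff]
    rcases lt_or_eq_of_le h1.1 with h2 | h2
    · exact Or.inl h2
    · exact Or.inr ⟨h2, lt_or_eq_of_le (h1.2 h2.symm)⟩
  have heN : ZFSet.pair ρ.toZFSet ξ.toZFSet ∈ N := k.mpair hρ hξ
  refine ⟨ix A (ZFSet.pair ρ.toZFSet ξ.toZFSet), hixN _ heN, hs, ?_⟩
  obtain ⟨θ, hθ⟩ := dfb_R hix φ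
  refine ⟨θ, fun x hx => ?_⟩
  rw [hθ (· ∈ N) k (cons x (cons A v)) (In.cons (In.cons hv hA) hx)]
  constructor
  · rintro ⟨e, he, h1, h2, h3⟩
    obtain ⟨ρ', ξ', rfl⟩ := po_iff.1 h1.1
    have h4 := h2 _ heN ((hS ρ ξ _ rfl fun i => rfl).2 hs)
    have h5 : (ρ', ξ') ∈ T := ⟨(k.of_pair he).1, (k.of_pair he).2,
      (hS ρ' ξ' _ rfl fun i => rfl).1 h1⟩
    have h6 := hle _ _ h5
    obtain ⟨rfl, rfl⟩ := lx_antisymm h4 h6
    exact h3
  · intro h
    refine ⟨_, heN, (hS ρ ξ _ rfl fun i => rfl).2 hs, ?_, h⟩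
    intro e' he' h1
    obtain ⟨ρ', ξ', rfl⟩ := po_iff.1 h1.1
    exact hle _ _ ⟨(k.of_pair he').1, (k.of_pair he').2, (hS ρ' ξ' _ rfl fun i => rfl).1 h1⟩

end DC

open DC in
theorem pf_DC : T_DC := by
  intro N A τ k hA hN Y hY hAY
  have hemp : ∅ ∈ Dcl N Y := by
    refine mem_Dcl.2 ⟨k.mempty, .neg (.ex (.mem 0 1)), [], by simp, fun x hx => ?_⟩
    constructor
    · intro h
      rw [ZFSet.eq_empty]
      intro y hy
      exact h ⟨y, k.trans x hx y hy, hy⟩
    · rintro rfl ⟨y, _, hy⟩
      exact ZFSet.notMem_empty y hy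
  have hYD : Y ⊆ Dcl N Y := by
    intro y hy
    refine mem_Dcl.2 ⟨hY hy, .eq 0 1, [y], ?_, fun x hx => Iff.rfl⟩
    intro p hp
    rw [List.mem_singleton] at hp
    subst hp
    exact ⟨hy, hY hy⟩
  have hAD : A ∈ Dcl N Y := by
    rcases hAY with rfl | h
    · exact hemp
    · exact hYD h
  have hDN : Dcl N Y ⊆ N := fun z hz => (mem_Dcl.1 hz).1
  refine ⟨⟨hDN, ?_⟩, ⟨∅, hemp⟩, hYD, ?_⟩
  · intro φ
    induction φ with
    | mem i j => exact fun v _ => Iff.rfl
    | eq i j => exact fun v _ => Iff.rfl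
    | prd i => exact fun v _ => Iff.rfl
    | neg φ ih => exact fun v hv => not_congr (ih v hv)
    | and φ ψ ih1 ih2 => exact fun v hv => and_congr (ih1 v hv) (ih2 v hv)
    | ex φ ih =>
      intro v hv
      constructor
      · rintro ⟨x, hx, h⟩
        exact ⟨x, hDN hx, (ih (cons x v) (In.cons (M := (· ∈ Dcl N Y)) hv hx)).1 h⟩
      · rintro ⟨x, hx, h⟩
        obtain ⟨z, hz, hs, θ, hθ⟩ := tvstep k hA hN φ v (fun i => hDN (hv i)) ⟨x, hx, h⟩
        have hzD : z ∈ Dcl N Y := by
          refine comb N Y θ.bd θ [] z (cons A v) (by simp) ?_ hz ?_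
          · intro i _
            rcases i with _ | i
            · exact hAD
            · exact hv i
          · intro x hx
            rw [← hθ x hx]
            refine satP_congr _ _ _ _ _ fun i hi => ?_
            rcases i with _ | i
            · rfl
            · rw [cons_succ, cons_succ, if_pos (by omega)]
        exact ⟨z, hzD, (ih (cons z v) (In.cons (M := (· ∈ Dcl N Y)) hv hzD)).2 hs⟩
  · intro X hX hXne hYX z hz
    obtain ⟨hzN, φ, l, hl, h⟩ := mem_Dcl.1 hz
    obtain ⟨p0, hp0⟩ := hXne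
    have e : ∀ x : V, (fun i => cons x (fun i => l.getD i p0)
        (if i ≤ l.length then i else 0)) = cons x fun i => l.getD i x := by
      intro x
      funext i
      rcases i with _ | i
      · rfl
      · by_cases hi : i + 1 ≤ l.length
        · rw [if_pos hi, cons_succ, cons_succ, List.getD_eq_getElem _ _ (by omega),
            List.getD_eq_getElem _ _ (by omega)]
        · rw [if_neg hi, cons_zero, cons_succ, List.getD_eq_default _ _ (by omega)]
    have hw : ∀ i, l.getD i p0 ∈ X := by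
      intro i
      by_cases hi : i < l.length
      · rw [List.getD_eq_getElem _ _ hi]
        exact hYX (hl _ (List.getElem_mem hi)).1
      · rw [List.getD_eq_default _ _ (by omega)]
        exact hp0
    have h1 : Sat (· ∈ N) (.ex (φ.rn fun i => if i ≤ l.length then i else 0))
        (fun i => l.getD i p0) := by
      refine ⟨z, hzN, ?_⟩
      rw [satP_rn, e]
      exact (h z hzN).2 rfl
    obtain ⟨x, hx, h2⟩ := (hX.2 _ _ hw).2 h1
    have h3 := (hX.2 (φ.rn fun i => if i ≤ l.length then i else 0)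
      (cons x fun i => l.getD i p0) (In.cons (M := (· ∈ X)) hw hx)).1 h2
    unfold Sat at h3
    rw [satP_rn, e] at h3
    have h4 : x = z := (h x (hX.1 hx)).1 h3
    rw [← h4]
    exact hx

end CAA
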