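import Pool.Agent.H9.SG.H68LT

/-! Cardinality of the levels. -/

open Ordinal Cardinal Order Set
open scoped ZFSet

namespace SG

/-- a code of a formula -/
private def lcaEnc : Fml → ℕ
  | .mem i j => 6 * Nat.pair i j
  | .eq i j => 6 * Nat.pair i j + 1
  | .prd i => 6 * i + 2
  | .neg φ => 6 * lcaEnc φ + 3
  | .and φ ψ => 6 * Nat.pair (lcaEnc φ) (lcaEnc ψ) + 4
  | .ex φ => 6 * lcaEnc φ + 5

private theorem lcaEnc_inj : ∀ φ ψ : Fml, lcaEnc φ = lcaEnc ψ → φ = ψ := by
  intro φ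
  induction φ with
  | mem i j =>
    intro ψ h
    cases ψ <;> simp only [lcaEnc] at h <;> try omega
    have h2 := Nat.pair_eq_pair.1 (Nat.eq_of_mul_eq_mul_left (by norm_num) h)
    rw [h2.1, h2.2]
  | eq i j =>
    intro ψ h
    cases ψ <;> simp only [lcaEnc] at h <;> try omega
    have h2 := Nat.pair_eq_pair.1 (Nat.eq_of_mul_eq_mul_left (by norm_num) (Nat.add_right_cancel h))
    rw [h2.1, h2.2]
  | prd i =>
    intro ψ h
    cases ψ <;> simp only [lcaEnc] at h <;> try omega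
    have h2 := Nat.eq_of_mul_eq_mul_left (by norm_num) (Nat.add_right_cancel h)
    rw [h2]
  | neg φ ih =>
    intro ψ h
    cases ψ <;> simp only [lcaEnc] at h <;> try omega
    have h2 := Nat.eq_of_mul_eq_mul_left (by norm_num) (Nat.add_right_cancel h)
    rw [ih _ h2]
  | and φ ψ ih1 ih2 =>
    intro χ h
    cases χ <;> simp only [lcaEnc] at h <;> try omega
    have h2 := Nat.pair_eq_pair.1 (Nat.eq_of_mul_eq_mul_left (by norm_num) (Nat.add_right_cancel h))
    rw [ih1 _ h2.1, ih2 _ h2.2]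
  | ex φ ih =>
    intro ψ h
    cases ψ <;> simp only [lcaEnc] at h <;> try omega
    have h2 := Nat.eq_of_mul_eq_mul_left (by norm_num) (Nat.add_right_cancel h)
    rw [ih _ h2]

/-- there are countably many formulas -/
theorem LCA_countable : Countable Fml := ⟨lcaEnc, fun φ ψ h => lcaEnc_inj φ ψ h⟩

theorem LCA_Def (x A : V) : (Def x A).card ≤ max ℵ₀ x.card := by
  have := LCA_countable
  rw [← Cardinal.lift_le.{2}, ← ZFSet.cardinalMk_coe_sort, lift_max, lift_aleph0,
    ← ZFSet.cardinalMk_coe_sort]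
  let F : Fml × List {p : V // p ∈ x} → V := fun q => x.sep fun z =>
    SatP (· ∈ x) (· ∈ A) q.1 (cons z fun i => (q.2.map Subtype.val).getD i z)
  have h1 : {y : V | y ∈ Def x A} ⊆ Set.range F := by
    intro y hy
    obtain ⟨φ, l, hl, rfl⟩ := mem_Def.1 hy
    refine ⟨(φ, l.attachWith (· ∈ x) hl), ?_⟩
    show (x.sep fun z => SatP (· ∈ x) (· ∈ A) φ
      (cons z fun i => ((l.attachWith (· ∈ x) hl).map Subtype.val).getD i z)) = _
    rw [List.attachWith_map_subtype_val]
  have h2 : #{y : V // y ∈ Def x A} ≤ #(Fml × List {p : V // p ∈ x}) :=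
    (mk_le_mk_of_subset h1).trans mk_range_le
  refine h2.trans ?_
  rw [mk_prod, Cardinal.lift_uzero]
  have h3 : lift.{2} #Fml ≤ ℵ₀ := by
    rw [Cardinal.lift_le_aleph0]
    exact mk_le_aleph0
  have h4 : #(List {p : V // p ∈ x}) ≤ max ℵ₀ #{p : V // p ∈ x} := mk_list_le_max _
  calc lift.{2} #Fml * #(List {p : V // p ∈ x})
      ≤ max ℵ₀ #{p : V // p ∈ x} * max ℵ₀ #{p : V // p ∈ x} :=
        mul_le_mul' (h3.trans (le_max_left _ _)) h4
    _ = max ℵ₀ #{p : V // p ∈ x} := mul_eq_self (le_max_left _ _)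

theorem pf_LCA : T_LCA := by
  intro a A α
  induction α using WellFoundedLT.induction with
  | ind α ih =>
    set μ := max (max ℵ₀ a.card) α.card with hμ
    have hμ0 : ℵ₀ ≤ μ := (le_max_left _ _).trans (le_max_left _ _)
    rw [← Cardinal.lift_le.{2}, ← ZFSet.cardinalMk_coe_sort]
    have h1 : {y : V | y ∈ Lh a A α} ⊆
        {y : V | y ∈ a} ∪ ⋃ β : Set.Iio α, {y : V | y ∈ Def (Lh a A β.1) A} := by
      intro y hy
      rcases mem_Lh.1 hy with hy | ⟨β, hβ, hy⟩
      · exact Or.inl hy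
      · exact Or.inr (Set.mem_iUnion.2 ⟨⟨β, hβ⟩, hy⟩)
    have h2 : #{y : V // y ∈ Lh a A α} ≤
        #{y : V // y ∈ a} + #(⋃ β : Set.Iio α, {y : V | y ∈ Def (Lh a A β.1) A} : Set V) :=
      (mk_le_mk_of_subset h1).trans (mk_union_le _ _)
    have h3 : #{y : V // y ∈ a} ≤ lift.{2} μ := by
      rw [ZFSet.cardinalMk_coe_sort, Cardinal.lift_le]
      exact (le_max_right _ _).trans (le_max_left _ _)
    have h4 : #(⋃ β : Set.Iio α, {y : V | y ∈ Def (Lh a A β.1) A} : Set V) ≤ lift.{2} μ := by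
      refine (mk_iUnion_le _).trans ?_
      have h5 : #(Set.Iio α) ≤ lift.{2} μ := by
        rw [Cardinal.mk_Iio_ordinal, Cardinal.lift_le]
        exact le_max_right _ _
      have h6 : (⨆ β : Set.Iio α, #{y : V // y ∈ Def (Lh a A β.1) A}) ≤ lift.{2} μ := by
        refine ciSup_le' fun β => ?_
        rw [ZFSet.cardinalMk_coe_sort, Cardinal.lift_le]
        refine (LCA_Def _ _).trans (max_le hμ0 ((ih β.1 β.2).trans ?_))
        exact max_le (le_max_left _ _) ((Ordinal.card_le_card (le_of_lt β.2)).trans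
          (le_max_right _ _))
      calc _ ≤ lift.{2} μ * lift.{2} μ := mul_le_mul' h5 h6
        _ = lift.{2} μ := mul_eq_self (by rw [← lift_aleph0.{2, 1}, Cardinal.lift_le]; exact hμ0)
    calc _ ≤ lift.{2} μ + lift.{2} μ := h2.trans (add_le_add h3 h4)
      _ = lift.{2} μ := add_eq_self (by rw [← lift_aleph0.{2, 1}, Cardinal.lift_le]; exact hμ0)

end SG
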