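import Pool.Agent.H9.SG.H68LT

/-! Löwenheim–Skolem with a closure function. -/

open Ordinal Cardinal Order Set
open scoped ZFSet

namespace SG.H58

open SG

/-- a code of a formula -/
def enc : Fml → ℕ
  | .mem i j => Nat.pair 0 (Nat.pair i j)
  | .eq i j => Nat.pair 1 (Nat.pair i j)
  | .prd i => Nat.pair 2 i
  | .neg φ => Nat.pair 3 (enc φ)
  | .and φ ψ => Nat.pair 4 (Nat.pair (enc φ) (enc ψ))
  | .ex φ => Nat.pair 5 (enc φ)

theorem enc_inj : Function.Injective enc := by
  intro φ
  induction φ with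
  | mem i j =>
    intro ψ h
    cases ψ <;> simp [enc, Nat.pair_eq_pair] at h
    simp [h]
  | eq i j =>
    intro ψ h
    cases ψ <;> simp [enc, Nat.pair_eq_pair] at h
    simp [h]
  | prd i =>
    intro ψ h
    cases ψ <;> simp [enc, Nat.pair_eq_pair] at h
    simp [h]
  | neg φ ih =>
    intro ψ h
    cases ψ <;> simp [enc, Nat.pair_eq_pair] at h
    rw [ih h]
  | and φ ψ ih1 ih2 =>
    intro χ h
    cases χ <;> simp [enc, Nat.pair_eq_pair] at h
    rw [ih1 h.1, ih2 h.2]
  | ex φ ih =>
    intro ψ h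
    cases ψ <;> simp [enc, Nat.pair_eq_pair] at h
    rw [ih h]

theorem countable_fml : Countable Fml := enc_inj.countable

/-- small unions of small sets are small -/
theorem card_iUnion_lt {κ : Cardinal.{1}} (hκ : κ.IsRegular) {ι : Type 1} (hι : #ι < κ)
    (f : ι → V) (hf : ∀ i, (f i).card < κ) : (⋃ i, f i : ZFSet).card < κ := by
  have h1 := ZFSet.lift_card_iUnion_le_sum_card (f := f)
  rw [Cardinal.lift_id] at h1
  exact lt_of_le_of_lt h1 (Cardinal.sum_lt_of_isRegular hκ hι hf)

theorem card_range_lt {κ : Cardinal.{1}} {ι : Type 1} (hι : #ι < κ) (f : ι → V) :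
    (ZFSet.range f).card < κ := by
  have h1 := ZFSet.lift_card_range_le (f := f)
  rw [Cardinal.lift_id, Cardinal.lift_id] at h1
  exact lt_of_le_of_lt h1 hι

theorem card_union_lt {κ : Cardinal.{1}} (hκ : ℵ₀ ≤ κ) {x y : V} (hx : x.card < κ)
    (hy : y.card < κ) : (x ∪ y).card < κ :=
  lt_of_le_of_lt ZFSet.card_union_le (Cardinal.add_lt_of_lt hκ hx hy)

/-- the element of a set with a given index -/
noncomputable def el (Y : V) (s : Shrink.{1} Y) : V := ((equivShrink Y).symm s).1

theorem el_mem {Y : V} (s : Shrink.{1} Y) : el Y s ∈ Y := ((equivShrink Y).symm s).2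

theorem exists_el {Y x : V} (hx : x ∈ Y) : ∃ s, el Y s = x :=
  ⟨equivShrink Y ⟨x, hx⟩, by simp [el]⟩

/-- a witness -/
noncomputable def wit (N w0 : V) (φ : Fml) (l : List V) : V :=
  open Classical in
  if h : ∃ y, y ∈ N ∧ Sat (· ∈ N) φ (cons y fun i => l.getD i w0) then h.choose else w0

theorem wit_mem {N w0 : V} (h0 : w0 ∈ N) (φ : Fml) (l : List V) : wit N w0 φ l ∈ N := by
  unfold wit
  split_ifs with h
  · exact h.choose_spec.1
  · exact h0

theorem wit_spec {N w0 : V} {φ : Fml} {l : List V}
    (h : ∃ y, y ∈ N ∧ Sat (· ∈ N) φ (cons y fun i => l.getD i w0)) :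
    Sat (· ∈ N) φ (cons (wit N w0 φ l) fun i => l.getD i w0) := by
  unfold wit
  rw [dif_pos h]
  exact h.choose_spec.2

/-- one step of the closure -/
noncomputable def step (N w0 : V) (E : V → V) (Y : V) : V :=
  (Y ∪ (⋃ s : Shrink.{1} Y, E (el Y s) : ZFSet)) ∪
    ZFSet.range fun p : Fml × List (Shrink.{1} Y) => wit N w0 p.1 (p.2.map (el Y))

/-- the steps -/
noncomputable def Yn (N w0 : V) (E : V → V) (S : V) : ℕ → V
  | 0 => S
  | n + 1 => step N w0 E (Yn N w0 E S n)

theorem lls : T_LLS := by
  intro κ hκ hκ0 N S hN hS hSc E hE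
  obtain ⟨w0, hw0⟩ := hN
  have hstep_sub : ∀ Y, Y ⊆ step N w0 E Y := by
    intro Y x hx
    unfold step
    rw [ZFSet.mem_union, ZFSet.mem_union]
    exact Or.inl (Or.inl hx)
  have hstep_N : ∀ Y, Y ⊆ N → step N w0 E Y ⊆ N := by
    intro Y hY x hx
    unfold step at hx
    rw [ZFSet.mem_union, ZFSet.mem_union, ZFSet.mem_iUnion, ZFSet.mem_range] at hx
    rcases hx with (hx | ⟨s, hx⟩) | ⟨p, rfl⟩
    · exact hY hx
    · exact (hE _ (hY (el_mem s))).2 hx
    · exact wit_mem hw0 _ _
  have hstep_c : ∀ Y, Y ⊆ N → Y.card < κ → (step N w0 E Y).card < κ := by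
    intro Y hY hc
    have hY1 : #(Shrink.{1} Y) < κ := hc
    unfold step
    refine card_union_lt hκ.aleph0_le (card_union_lt hκ.aleph0_le hc ?_) ?_
    · exact card_iUnion_lt hκ hY1 _ fun s => (hE _ (hY (el_mem s))).1
    · refine card_range_lt ?_ _
      rw [Cardinal.mk_prod, Cardinal.lift_uzero]
      refine Cardinal.mul_lt_of_lt hκ.aleph0_le ?_ ?_
      · haveI := countable_fml
        exact lt_of_le_of_lt (Cardinal.lift_le_aleph0.2 Cardinal.mk_le_aleph0) hκ0
      · exact lt_of_le_of_lt (Cardinal.mk_list_le_max _) (max_lt hκ0 hY1)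
  set Y := Yn N w0 E S with hYdef
  have hYN : ∀ n, Y n ⊆ N := by
    intro n
    induction n with
    | zero => exact hS
    | succ n ih => exact hstep_N _ ih
  have hYc : ∀ n, (Y n).card < κ := by
    intro n
    induction n with
    | zero => exact hSc
    | succ n ih => exact hstep_c _ (hYN n) ih
  have hYm : ∀ m n, m ≤ n → Y m ⊆ Y n := by
    intro m n h
    induction n, h using Nat.le_induction with
    | base => exact fun _ h => h
    | succ n _ ih => exact fun x hx => hstep_sub _ (ih hx)
  set X : V := ⋃ n : ℕ, Y n with hX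
  have hmemX : ∀ x, x ∈ X ↔ ∃ n, x ∈ Y n := fun x => by rw [hX, ZFSet.mem_iUnion]
  have hXN : X ⊆ N := by
    intro x hx
    obtain ⟨n, hn⟩ := (hmemX x).1 hx
    exact hYN n hn
  refine ⟨X, ⟨hXN, ?_⟩, ?_, ?_, ?_⟩
  · intro φ
    unfold Sat
    induction φ with
    | mem i j => intro v hv; exact Iff.rfl
    | eq i j => intro v hv; exact Iff.rfl
    | prd i => intro v hv; exact Iff.rfl
    | neg φ ih => intro v hv; exact not_congr (ih v hv)
    | and φ ψ ih1 ih2 => intro v hv; exact and_congr (ih1 v hv) (ih2 v hv)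
    | ex φ ih =>
      intro v hv
      constructor
      · rintro ⟨x, hx, h⟩
        refine ⟨x, hXN hx, (ih (cons x v) ?_).1 h⟩
        intro i
        cases i with
        | zero => exact hx
        | succ i => exact hv i
      · rintro ⟨y, hy, h⟩
        -- the parameters are in one set
        obtain ⟨n, hn⟩ : ∃ n, ∀ i < φ.bd, v i ∈ Y n := by
          have : ∀ b : ℕ, ∃ n, ∀ i < b, v i ∈ Y n := by
            intro b
            induction b with
            | zero => exact ⟨0, fun i hi => absurd hi (by omega)⟩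
            | succ b ihb =>
              obtain ⟨n, hn⟩ := ihb
              obtain ⟨m, hm⟩ := (hmemX _).1 (hv b)
              refine ⟨max n m, fun i hi => ?_⟩
              rcases Nat.lt_succ_iff_lt_or_eq.1 hi with h1 | h1
              · exact hYm _ _ (le_max_left _ _) (hn i h1)
              · rw [h1]
                exact hYm _ _ (le_max_right _ _) hm
          exact this _
        choose s hs using fun i : Fin φ.bd => exists_el (hn i.1 i.2)
        set l : List (Shrink.{1} (Y n)) := List.ofFn s with hl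
        have hlg : ∀ i < φ.bd, (l.map (el (Y n))).getD i w0 = v i := by
          intro i hi
          rw [List.getD_eq_getElem _ _ (by simpa [hl] using hi)]
          simp only [hl, List.getElem_map, List.getElem_ofFn]
          exact hs ⟨i, hi⟩
        have hex : ∃ y, y ∈ N ∧ Sat (· ∈ N) φ (cons y fun i => (l.map (el (Y n))).getD i w0) := by
          refine ⟨y, hy, ?_⟩
          refine (satP_congr _ _ φ _ _ fun i hi => ?_).1 h
          cases i with
          | zero => rfl
          | succ i => exact (hlg i (by omega)).symm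
        have hw := wit_spec hex
        have hwX : wit N w0 φ (l.map (el (Y n))) ∈ X := by
          rw [hmemX]
          refine ⟨n + 1, ?_⟩
          show _ ∈ step N w0 E (Y n)
          unfold step
          rw [ZFSet.mem_union, ZFSet.mem_range]
          exact Or.inr ⟨(φ, l), rfl⟩
        refine ⟨_, hwX, (ih _ ?_).2 ?_⟩
        · intro i
          cases i with
          | zero => exact hwX
          | succ i => exact hv i
        · refine (satP_congr _ _ φ _ _ fun i hi => ?_).1 hw
          cases i with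
          | zero => rfl
          | succ i => exact hlg i (by omega)
  · intro x hx
    exact (hmemX x).2 ⟨0, hx⟩
  · have e : X = (⋃ n : ULift.{1} ℕ, Y n.down : ZFSet) := by
      ext x
      rw [hmemX, ZFSet.mem_iUnion]
      exact ⟨fun ⟨n, h⟩ => ⟨⟨n⟩, h⟩, fun ⟨n, h⟩ => ⟨n.down, h⟩⟩
    rw [e]
    refine card_iUnion_lt hκ ?_ _ fun n => hYc n.down
    rw [Cardinal.mk_uLift, Cardinal.mk_nat, Cardinal.lift_aleph0]
    exact hκ0
  · intro x hx y hy
    obtain ⟨n, hn⟩ := (hmemX x).1 hx
    rw [hmemX]
    refine ⟨n + 1, ?_⟩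
    show _ ∈ step N w0 E (Y n)
    obtain ⟨s, rfl⟩ := exists_el hn
    unfold step
    rw [ZFSet.mem_union, ZFSet.mem_union, ZFSet.mem_iUnion]
    exact Or.inl (Or.inr ⟨s, hy⟩)

end SG.H58
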