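import Pool.Agent.H9.CA.UDefs

/-! `T_UD`: countable transitive sets of universe 1 have isomorphic copies in universe 0. -/

open Ordinal Order Set
open scoped ZFSet

namespace CAB.UD

open Classical in
/-- the copy of a hereditarily countable set -/
noncomputable def dn (y : ZFSet.{1}) : ZFSet.{0} :=
  if h : Small.{0} {u : ZFSet.{1} // u ∈ y} then
    @ZFSet.range {u : ZFSet.{1} // u ∈ y} h fun u => dn u.1
  else ∅
termination_by y.rank
decreasing_by exact ZFSet.rank_lt_of_mem u.2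

theorem mem_dn {y : ZFSet.{1}} (h : Small.{0} {u : ZFSet.{1} // u ∈ y}) (z : ZFSet.{0}) :
    z ∈ dn y ↔ ∃ u ∈ y, dn u = z := by
  rw [dn, dif_pos h, ZFSet.mem_range]
  constructor
  · rintro ⟨u, hu⟩
    exact ⟨u.1, u.2, hu⟩
  · rintro ⟨u, hu, rfl⟩
    exact ⟨⟨u, hu⟩, rfl⟩

theorem small_of {x : ZFSet.{1}} (hx : (x : Set ZFSet.{1}).Countable) {y : ZFSet.{1}}
    (hy : y ⊆ x) : Small.{0} {u : ZFSet.{1} // u ∈ y} := by
  have h : Countable {u : ZFSet.{1} // u ∈ y} := by
    have h1 : {u : ZFSet.{1} | u ∈ y}.Countable := hx.mono fun u hu => hy hu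
    exact h1.to_subtype
  exact Countable.toSmall _

end CAB.UD

namespace CAB

open UD

theorem pf_UD : T_UD := by
  intro x hx hc
  have hs : ∀ y ∈ x, Small.{0} {u : ZFSet.{1} // u ∈ y} := fun y hy => small_of hc (hx y hy)
  have hsx : Small.{0} {u : ZFSet.{1} // u ∈ x} := small_of hc fun _ h => h
  refine ⟨dn x, dn, ?_, ?_, ?_, ?_, ?_, ?_⟩
  · intro z hz w hw
    obtain ⟨y, hy, rfl⟩ := (mem_dn hsx z).1 hz
    obtain ⟨u, hu, rfl⟩ := (mem_dn (hs y hy) w).1 hw
    exact (mem_dn hsx _).2 ⟨u, hx y hy hu, rfl⟩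
  · refine (hc.image dn).mono ?_
    intro z hz
    obtain ⟨y, hy, rfl⟩ := (mem_dn hsx z).1 hz
    exact ⟨y, hy, rfl⟩
  · exact fun y hy => (mem_dn hsx _).2 ⟨y, hy, rfl⟩
  · intro z hz
    obtain ⟨y, hy, rfl⟩ := (mem_dn hsx z).1 hz
    exact ⟨y, hy, rfl⟩
  · intro y
    induction y using ZFSet.inductionOn with
    | _ y ih =>
      intro hy z hz h
      ext u
      constructor
      · intro hu
        have h1 : dn u ∈ dn z := by
          rw [← h]
          exact (mem_dn (hs y hy) _).2 ⟨u, hu, rfl⟩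
        obtain ⟨w, hw, hwu⟩ := (mem_dn (hs z hz) _).1 h1
        have h2 : u = w := ih u hu (hx y hy hu) w (hx z hz hw) hwu.symm
        rwa [h2]
      · intro hu
        have h1 : dn u ∈ dn y := by
          rw [h]
          exact (mem_dn (hs z hz) _).2 ⟨u, hu, rfl⟩
        obtain ⟨w, hw, hwu⟩ := (mem_dn (hs y hy) _).1 h1
        have h2 : w = u := ih w hw (hx y hy hw) u (hx z hz hu) hwu
        rwa [← h2]
  · exact fun y hy z => mem_dn (hs y hy) z

end CAB
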